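import Pool.Agent.Helper70.GUM.St3

set_option autoImplicit false

namespace Pool.Agent.Helper22.GUT

open Module _root_.GUM Pool.Agent.Helper70.GUM Pool.Agent.Helper70.GUT
open UN (QE)
open OG (act Bd Stb steps Ch Wt)

universe u v y

theorem hEA : StEA.{u, v, y} := by
  intro k F _ _ _ X _ _ σ hσ B p p₂ h1 h2 h3
  have h4 : B.f p₂ p = 0 := B.swap0 h3
  refine ⟨?_, ?_, ?_⟩
  · intro t t'
    refine LinearEquiv.ext fun x => ?_
    rw [LinearEquiv.mul_apply, eA_apply, eA_apply, eA_apply, eL_comp B p p₂ h1 h2 h3]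
    rfl
  · intro Y hp hp₂ t
    obtain ⟨⟨α, β, δ⟩, ht⟩ := t
    obtain ⟨hα, hδ⟩ := mem_VV.1 ht
    simp only at hα hδ
    refine ⟨?_, ?_, ?_⟩
    · intro x y
      rw [eA_apply, eA_apply, eL_apply, eL_apply]
      have e1 : B.f p y = σ (B.f y p) := B.sym y p
      have e2 : B.f p₂ y = σ (B.f y p₂) := B.sym y p₂
      simp only [B.add, B.add_r, B.smul, B.smul_r, h1, h2, h3, h4, e1, e2, map_add, map_mul,
        map_neg, hσ.inv]
      linear_combination (B.f x p * σ (B.f y p)) * hα + (B.f x p₂ * σ (B.f y p₂)) * hδ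
    · intro x
      rw [eA_apply, eL_apply, add_assoc, add_sub_cancel_left]
      exact Y.add_mem (Y.smul_mem _ hp) (Y.smul_mem _ hp₂)
    · intro x hx
      rw [eA_apply, eL_apply, hx p hp, hx p₂ hp₂]
      simp
  · intro hσ' c x y hc z
    have hc' : σ c = -c := by linear_combination hc
    rw [eA_apply, eL_apply]
    simp only [vt, B.add_r, B.smul_r, map_mul, hσ.inv, hc']
    module

end Pool.Agent.Helper22.GUT
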